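import Pool.Agent.R326.CycData

/-!
The number of real critical points of cyclotomic polynomials is not monotone in a prime factor:
`N_885 ≥ 7` and `N_1239 ≤ 5`, where `885 = 177 * 5`, `1239 = 177 * 7` and `177 = 3 * 59`.
-/

set_option autoImplicit false

namespace Pool.Agent.Results.MP_99db3a_nt.NotMonotone

open Polynomial

/-- the number of the real roots, counted with multiplicity, of the derivative of the `m`-th
cyclotomic polynomial -/
noncomputable def N (m : ℕ) : ℕ := (derivative (cyclotomic m ℝ)).roots.card

/-- It is not true that `N (n p) ≤ N (n p')` for every odd squarefree `n > 1` (that is, every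
nonempty product of distinct odd primes) and all primes `p < p'` not dividing `n`. -/
theorem result : ¬ ∀ n : ℕ, 1 < n → Odd n → Squarefree n → ∀ p p' : ℕ, p.Prime → p'.Prime →
    p < p' → ¬ p ∣ n → ¬ p' ∣ n → N (n * p) ≤ N (n * p') := by
  intro h
  have hsq : Squarefree 177 := by
    rw [show 177 = 3 * 59 by norm_num, Nat.squarefree_mul (by norm_num)]
    exact ⟨(by norm_num : Nat.Prime 3).squarefree, (by norm_num : Nat.Prime 59).squarefree⟩
  have h1 := h 177 (by norm_num) (by decide) hsq 5 7 (by norm_num) (by norm_num) (by norm_num)
    (by norm_num) (by norm_num)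
  have h2 : 7 ≤ N (177 * 5) := Pool.Agent.R326.seven_le
  have h3 : N (177 * 7) ≤ 5 := Pool.Agent.R326.le_five
  omega

end Pool.Agent.Results.MP_99db3a_nt.NotMonotone
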